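import Mathlib
import Pool.Agent.Q149.HessE

/-!
# MP_d44d58_nt: exactly twelve NRS-matrices `M(m,n)` are not ς-reduced

`M(m,n)` is the family of Hessenberg matrices of the problem, with characteristic polynomial
`t³ - (2n+2) t² - 2m t - 1`.  It is proved that there are exactly twelve pairs `(m,n)` for which
`M(m,n)` is an NRS-matrix and not ς-reduced, and they are listed.

Proof.  Put `p = 2n+2`, `Q = -2m`.  If `Δ(v) = 1` for an integral `v`, half of the adjoint of the
corresponding element is an element of norm `2` of `ℤ[t]`, `t³ - p t² + Q t - 1 = 0`.  By `t → 1/t`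
we may suppose `p < Q`; then `p = -2s`, `Q = s² + k` with `k ≥ 0`, `k ≡ s (mod 2)`.  Let `τ` be the
real root, so that `τ ((s+τ)² + k) = 1`.  If `k > 0`, multiply the element `x + y t + z t²` of norm
`± 2` by a power of the unit `t` so that its real conjugate lies in `(θ, θ/τ]`, where `θ = 5/8` or
`2/3`; the bounds for the real and the complex conjugate give `z = 0` and `|y| ≤ 1` except for four
small pairs `(s, k)`, and `(x ± t)` has norm `± 2` only for six pairs `(s,k)`, among them the
exceptions.  For `k = 0` the unit `t` is the inverse of the square of the unit `t + s`, which is used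
instead.
-/

namespace Pool.Agent.Results.MP_d44d58_nt.ExactlyTwelve

open Pool.Agent.Q149.Hess

/-- The twelve pairs `(m, n)`. -/
def twelve : Finset (ℤ × ℤ) :=
  {(-2, -3), (-5, 2), (-1, -2), (-2, 0), (-1, -1), (-3, 1),
   (2, 1), (-3, 4), (1, 0), (-1, 1), (0, 0), (-2, 2)}

lemma NRS.ne {m n : ℤ} (h : NRS m n) : 2*n+2 ≠ -2*m := by
  intro he
  have hirr := h.1
  have hdeg : ((M m n).charpoly.map (Int.castRingHom ℚ)).natDegree = 3 := by
    rw [(charpoly_monic m n).natDegree_map, charpoly_natDegree]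
  have hz : Polynomial.aeval (1:ℂ) ((M m n).charpoly.map (Int.castRingHom ℚ)) = 0 := by
    rw [charpoly_M]
    simp only [Polynomial.map_sub, Polynomial.map_mul, Polynomial.map_pow, Polynomial.map_X,
      Polynomial.map_C, Polynomial.map_one, map_sub, map_mul, map_pow, Polynomial.aeval_X,
      Polynomial.aeval_C, map_one]
    simp
    have : ((2*n+2 : ℤ) : ℂ) = ((-2*m : ℤ) : ℂ) := by rw [he]
    push_cast at this
    linear_combination -this
  have := indep hirr hdeg hz (a := 1) (b := -1) (c := 0) (by push_cast; ring)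
  omega

lemma mem_of {m n : ℤ} (h : NRS m n) (hr : ¬ Reduced m n) : (m, n) ∈ twelve := by
  unfold Reduced at hr
  push Not at hr
  obtain ⟨v, hv0, hv⟩ := hr
  rw [Delta_e1, Delta_eq] at hv
  have hF0 : F m n (v 0) (v 1) (v 2) ≠ 0 := by
    intro h0
    obtain ⟨h1, h2, h3⟩ := h.F_ne h0
    apply hv0
    ext i
    fin_cases i
    · exact h1
    · exact h2
    · exact h3
  have hF1 : (F m n (v 0) (v 1) (v 2))^2 = 1 := by
    have h1 : |F m n (v 0) (v 1) (v 2)| = 1 := by
      have := abs_pos.mpr hF0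
      omega
    rw [← sq_abs, h1]; norm_num
  obtain ⟨a, b, c, habc⟩ := half_adj m n (v 0) (v 1) (v 2)
  rw [hF1] at habc
  obtain ⟨r, a', b', hb', hd⟩ := h.data
  have key := main_all hd ⟨n+1, by ring⟩ ⟨-m, by ring⟩ (NRS.ne h)
    (x := a) (y := b) (z := c) (Or.inl (by rw [habc]; norm_num))
  simp only [six, Finset.mem_insert, Finset.mem_singleton, Prod.mk.injEq] at key
  have fin : ∀ m' n' : ℤ, m = m' → n = n' → (m', n') ∈ twelve → (m, n) ∈ twelve := by
    rintro m' n' rfl rfl h; exact h
  rcases key with (h | h | h | h | h | h) | (h | h | h | h | h | h)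
  · exact fin (-2) (-3) (by omega) (by omega) (by decide)
  · exact fin (-5) 2 (by omega) (by omega) (by decide)
  · exact fin (-1) (-2) (by omega) (by omega) (by decide)
  · exact fin (-2) 0 (by omega) (by omega) (by decide)
  · exact fin (-1) (-1) (by omega) (by omega) (by decide)
  · exact fin (-3) 1 (by omega) (by omega) (by decide)
  · exact fin 2 1 (by omega) (by omega) (by decide)
  · exact fin (-3) 4 (by omega) (by omega) (by decide)
  · exact fin 1 0 (by omega) (by omega) (by decide)
  · exact fin (-1) 1 (by omega) (by omega) (by decide)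
  · exact fin 0 0 (by omega) (by omega) (by decide)
  · exact fin (-2) 2 (by omega) (by omega) (by decide)

lemma not_reduced_of {m n : ℤ} (v : Fin 3 → ℤ) (hv : v ≠ 0) (h : Delta (M m n) v = 1) :
    ¬ Reduced m n := by
  intro hr
  have := hr v hv
  rw [Delta_e1, h] at this
  norm_num at this

lemma of_mem {m n : ℤ} (h : (m, n) ∈ twelve) : NRS m n ∧ ¬ Reduced m n := by
  simp only [twelve, Finset.mem_insert, Finset.mem_singleton, Prod.mk.injEq] at h
  rcases h with ⟨rfl, rfl⟩ | ⟨rfl, rfl⟩ | ⟨rfl, rfl⟩ | ⟨rfl, rfl⟩ | ⟨rfl, rfl⟩ | ⟨rfl, rfl⟩ |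
    ⟨rfl, rfl⟩ | ⟨rfl, rfl⟩ | ⟨rfl, rfl⟩ | ⟨rfl, rfl⟩ | ⟨rfl, rfl⟩ | ⟨rfl, rfl⟩
  · exact ⟨nrs_of (by norm_num) (by norm_num) (by norm_num),
      not_reduced_of ![0, -1, -1] (by decide) (by decide)⟩
  · exact ⟨nrs_of (by norm_num) (by norm_num) (by norm_num),
      not_reduced_of ![-1, 1, -1] (by decide) (by decide)⟩
  · exact ⟨nrs_of (by norm_num) (by norm_num) (by norm_num),
      not_reduced_of ![-1, -1, -1] (by decide) (by decide)⟩
  · exact ⟨nrs_of (by norm_num) (by norm_num) (by norm_num),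
      not_reduced_of ![-1, 0, -1] (by decide) (by decide)⟩
  · exact ⟨nrs_of (by norm_num) (by norm_num) (by norm_num),
      not_reduced_of ![-1, -1, -1] (by decide) (by decide)⟩
  · exact ⟨nrs_of (by norm_num) (by norm_num) (by norm_num),
      not_reduced_of ![-1, 1, -1] (by decide) (by decide)⟩
  · exact ⟨nrs_of (by norm_num) (by norm_num) (by norm_num),
      not_reduced_of ![0, -1, 1] (by decide) (by decide)⟩
  · exact ⟨nrs_of (by norm_num) (by norm_num) (by norm_num),
      not_reduced_of ![-1, 1, -1] (by decide) (by decide)⟩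
  · exact ⟨nrs_of (by norm_num) (by norm_num) (by norm_num),
      not_reduced_of ![-1, -1, -1] (by decide) (by decide)⟩
  · exact ⟨nrs_of (by norm_num) (by norm_num) (by norm_num),
      not_reduced_of ![-1, 0, -1] (by decide) (by decide)⟩
  · exact ⟨nrs_of (by norm_num) (by norm_num) (by norm_num),
      not_reduced_of ![-1, -1, -1] (by decide) (by decide)⟩
  · exact ⟨nrs_of (by norm_num) (by norm_num) (by norm_num),
      not_reduced_of ![-1, 1, -1] (by decide) (by decide)⟩

/-- **MP_d44d58_nt, Q1.**  There are exactly twelve pairs `(m,n)` for which `M(m,n)` is an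
NRS-matrix and not ς-reduced; they form the explicit list `twelve`. -/
theorem result :
    {mn : ℤ × ℤ | NRS mn.1 mn.2 ∧ ¬ Reduced mn.1 mn.2}.ncard = 12 ∧
      {mn : ℤ × ℤ | NRS mn.1 mn.2 ∧ ¬ Reduced mn.1 mn.2} = (twelve : Set (ℤ × ℤ)) := by
  have h : {mn : ℤ × ℤ | NRS mn.1 mn.2 ∧ ¬ Reduced mn.1 mn.2} = (twelve : Set (ℤ × ℤ)) := by
    ext ⟨m, n⟩
    constructor
    · rintro ⟨h1, h2⟩
      exact mem_of h1 h2
    · intro h1
      exact of_mem h1
  refine ⟨?_, h⟩
  rw [h, Set.ncard_coe_finset]
  rfl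

end Pool.Agent.Results.MP_d44d58_nt.ExactlyTwelve
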